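import Pool.Agent.H76.CM.GapNum
import Pool.Agent.H49.CM.GapMain

/-!
# Long gaps

With probability one there are infinitely many `n` such that the random set has no element in `(n - (log n) ^ 2 / 4, n)`.
-/

set_option autoImplicit false

open Filter Real MeasureTheory ProbabilityTheory

namespace Pool.Agent.H63.CM

theorem gaps {Ω : Type*} [MeasurableSpace Ω] {μ : Measure Ω} [IsProbabilityMeasure μ] {P : Ω → Set ℕ} (h : IsCramer μ P) :
    ∀ᵐ ω ∂μ, ∃ᶠ n : ℕ in atTop, ∀ m ∈ P ω, m < n → (log n) ^ 2 / 4 ≤ (n : ℝ) - m :=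
  gaps_of num_gap h

end Pool.Agent.H63.CM
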