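import Pool.Agent.H13.CM.Tail
import Pool.Agent.H55.CM.Low
import Pool.Agent.H58.CM.Up
import Pool.Agent.H63.CM.Gaps

/-!
# The lower limit in Cramér's model
-/

set_option autoImplicit false

open Filter Real MeasureTheory ProbabilityTheory Topology

namespace Pool.Agent.H63.CM

theorem lim0 : Tendsto (fun n : ℕ => log (log n) / log n) atTop (𝓝 0) := by
  have h1 : Tendsto (fun x : ℝ => log x / x) atTop (𝓝 0) := by
    simpa using Real.isLittleO_log_id_atTop.tendsto_div_nhds_zero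
  exact h1.comp (Real.tendsto_log_atTop.comp tendsto_natCast_atTop_atTop)

variable {Ω : Type*} [MeasurableSpace Ω] {μ : Measure Ω} [IsProbabilityMeasure μ] {P : Ω → Set ℕ}

theorem bc {s : ℕ → Set Ω} (hs : ∀ᶠ n : ℕ in atTop, μ.real (s n) ≤ exp (-(2 * log n))) :
    ∀ᵐ ω ∂μ, ∀ᶠ n : ℕ in atTop, ω ∉ s n := by
  obtain ⟨N, hN⟩ := eventually_atTop.1 hs
  set s' : ℕ → Set Ω := fun n => if N + 1 ≤ n then s n else ∅ with hs'
  have h1 : ∀ n : ℕ, μ (s' n) ≤ ENNReal.ofReal (1 / (n : ℝ) ^ 2) := by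
    intro n
    by_cases hn : N + 1 ≤ n
    · have e : s' n = s n := if_pos hn
      rw [e]
      have hn0 : (0 : ℝ) < n := by
        have : 0 < n := by omega
        exact_mod_cast this
      have h2 := hN n (by omega)
      have e2 : exp (-(2 * log n)) = 1 / (n : ℝ) ^ 2 := by
        rw [Real.exp_neg, two_mul, Real.exp_add, Real.exp_log hn0, one_div, sq]
      rw [e2] at h2
      rw [← ENNReal.ofReal_toReal (measure_ne_top μ (s n))]
      exact ENNReal.ofReal_le_ofReal h2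
    · have e : s' n = ∅ := if_neg hn
      rw [e, measure_empty]
      exact bot_le
  have h2 : ∑' n, μ (s' n) ≠ ⊤ := by
    refine ne_top_of_le_ne_top ?_ (ENNReal.tsum_le_tsum h1)
    exact (Real.summable_one_div_nat_pow.2 (by norm_num)).tsum_ofReal_ne_top
  filter_upwards [ae_eventually_notMem h2] with ω hω
  filter_upwards [hω, eventually_ge_atTop (N + 1)] with n hn hn2
  have e : s' n = s n := if_pos hn2
  rwa [e] at hn

omit [MeasurableSpace Ω] in
theorem recip_eq (ω : Ω) (n : ℕ) :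
    recip (P ω) n = ∑ m ∈ Finset.range n, (1 / ((n : ℝ) - m)) * X P m ω := by
  classical
  unfold recip
  rw [Finset.sum_filter]
  refine Finset.sum_congr rfl fun m _ => ?_
  unfold X
  by_cases hm : m ∈ P ω
  · rw [if_pos hm, Set.indicator_of_mem (show ω ∈ {ω | m ∈ P ω} from hm), mul_one]
  · rw [if_neg hm, Set.indicator_of_notMem (show ω ∉ {ω | m ∈ P ω} from hm), mul_zero]

omit [MeasurableSpace Ω] in
theorem X_nonneg (m : ℕ) (ω : Ω) : 0 ≤ X P m ω := by
  unfold X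
  exact Set.indicator_nonneg (fun _ _ => zero_le_one) ω

omit [MeasurableSpace Ω] in
theorem X_le (m : ℕ) (ω : Ω) : X P m ω ≤ 1 := by
  unfold X
  exact Set.indicator_le_self' (fun _ _ => zero_le_one) ω

theorem w_nonneg {n m : ℕ} (h : m < n) : 0 ≤ 1 / ((n : ℝ) - m) := by
  have : (m : ℝ) < n := by exact_mod_cast h
  have h2 : (0 : ℝ) < (n : ℝ) - m := by linarith
  positivity

omit [MeasurableSpace Ω] in
theorem recip_ge (ω : Ω) (n : ℕ) : ∑ m ∈ Finset.Ico 3 n, (1 / ((n : ℝ) - m)) * X P m ω ≤ recip (P ω) n := by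
  rw [recip_eq]
  refine Finset.sum_le_sum_of_subset_of_nonneg ?_ ?_
  · intro m hm
    rw [Finset.mem_Ico] at hm
    exact Finset.mem_range.2 hm.2
  · intro m hm _
    exact mul_nonneg (w_nonneg (Finset.mem_range.1 hm)) (X_nonneg m ω)

omit [MeasurableSpace Ω] in
theorem recip_le (ω : Ω) {n : ℕ} (hn : 3 ≤ n) {L : ℝ} (hL : ∀ m ∈ P ω, m < n → L ≤ (n : ℝ) - m) :
    recip (P ω) n ≤ ∑ m ∈ (Finset.Ico 3 n).filter (fun m : ℕ => L ≤ (n : ℝ) - m), (1 / ((n : ℝ) - m)) * X P m ω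
      + 3 / ((n : ℝ) - 2) := by
  rw [recip_eq, Finset.range_eq_Ico, ← Finset.sum_Ico_consecutive _ (Nat.zero_le 3) hn, add_comm]
  refine add_le_add (le_of_eq ?_) ?_
  · rw [Finset.sum_filter]
    refine Finset.sum_congr rfl fun m hm => ?_
    rw [Finset.mem_Ico] at hm
    split_ifs with h1
    · rfl
    · have h2 : m ∉ P ω := fun h3 => h1 (hL m h3 hm.2)
      unfold X
      rw [Set.indicator_of_notMem (show ω ∉ {ω | m ∈ P ω} from h2), mul_zero]
  · have h0 : (0 : ℝ) < (n : ℝ) - 2 := by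
      have : (3 : ℝ) ≤ n := by exact_mod_cast hn
      linarith
    have h3 : ∀ m ∈ Finset.Ico 0 3, (1 / ((n : ℝ) - m)) * X P m ω ≤ 1 / ((n : ℝ) - 2) := by
      intro m hm
      rw [Finset.mem_Ico] at hm
      have hm2 : (m : ℝ) ≤ 2 := by
        have : m ≤ 2 := by omega
        exact_mod_cast this
      have h4 : 1 / ((n : ℝ) - m) ≤ 1 / ((n : ℝ) - 2) := one_div_le_one_div_of_le h0 (by linarith)
      have h5 : 0 ≤ 1 / ((n : ℝ) - m) := w_nonneg (by omega)
      calc (1 / ((n : ℝ) - m)) * X P m ω ≤ (1 / ((n : ℝ) - m)) * 1 := mul_le_mul_of_nonneg_left (X_le m ω) h5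
        _ ≤ _ := by rw [mul_one]; exact h4
    refine (Finset.sum_le_sum h3).trans (le_of_eq ?_)
    rw [Finset.sum_const, Nat.card_Ico]
    simp only [Nat.sub_zero, nsmul_eq_mul, Nat.cast_ofNat]
    ring

theorem lower (h : IsCramer μ P) {ε : ℝ} (hε : 0 < ε) : ∀ᵐ ω ∂μ, ∀ᶠ n : ℕ in atTop,
    1 - (2 + ε) * log (log n) / log n ≤ recip (P ω) n := by
  have h1 : ∀ᵐ ω ∂μ, ∀ᶠ n : ℕ in atTop, ω ∉ {ω | ∑ m ∈ Finset.Ico 3 n, (1 / ((n : ℝ) - m)) * X P m ω ≤
      1 - (2 + ε) * log (log n) / log n} := by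
    apply bc
    filter_upwards [num_low hε] with n hn
    exact (low_tail h (Finset.Ico 3 n) (fun m hm => (Finset.mem_Ico.1 hm).1) (fun m => 1 / ((n : ℝ) - m)) _
      (sq_nonneg (log n))).trans (exp_le_exp.2 hn)
  filter_upwards [h1] with ω hω
  filter_upwards [hω] with n hn
  have h2 : 1 - (2 + ε) * log (log n) / log n < ∑ m ∈ Finset.Ico 3 n, (1 / ((n : ℝ) - m)) * X P m ω := not_le.1 hn
  exact h2.le.trans (recip_ge ω n)

theorem upper (h : IsCramer μ P) {ε : ℝ} (hε : 0 < ε) : ∀ᵐ ω ∂μ, ∃ᶠ n : ℕ in atTop,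
    recip (P ω) n ≤ 1 - (2 - ε) * log (log n) / log n := by
  have h1 : ∀ᵐ ω ∂μ, ∀ᶠ n : ℕ in atTop, ω ∉ {ω | 1 - (2 - ε) * log (log n) / log n - 3 / ((n : ℝ) - 2) ≤
      ∑ m ∈ (Finset.Ico 3 n).filter (fun m : ℕ => (log n) ^ 2 / 4 ≤ (n : ℝ) - m), (1 / ((n : ℝ) - m)) * X P m ω} := by
    apply bc
    filter_upwards [num_up hε] with n hn
    exact (up_tail h _ (fun m hm => (Finset.mem_Ico.1 (Finset.mem_filter.1 hm).1).1) (fun m => 1 / ((n : ℝ) - m)) _
      (div_nonneg (sq_nonneg (log n)) (by norm_num))).trans (exp_le_exp.2 hn)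
  filter_upwards [h1, gaps h] with ω hω hg
  refine (hg.and_eventually (hω.and (eventually_ge_atTop 3))).mono ?_
  rintro n ⟨hn1, hn2, hn3⟩
  have h2 := not_le.1 hn2
  have h3 := recip_le ω hn3 hn1
  linarith

theorem liminf_one (h : IsCramer μ P) : ∀ᵐ ω ∂μ, liminf (fun n : ℕ => ((recip (P ω) n : ℝ) : EReal)) atTop = 1 := by
  filter_upwards [lower h one_pos, upper h one_pos] with ω h1 h2
  apply le_antisymm
  · apply liminf_le_of_frequently_le'
    have h3 : ∀ᶠ n : ℕ in atTop, 1 ≤ log (n : ℝ) :=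
      (Real.tendsto_log_atTop.comp tendsto_natCast_atTop_atTop).eventually_ge_atTop 1
    refine (h2.and_eventually h3).mono ?_
    rintro n ⟨hn, hl⟩
    have h4 : recip (P ω) n ≤ 1 := by
      refine hn.trans ?_
      have : 0 ≤ (2 - 1) * log (log (n : ℝ)) / log n :=
        div_nonneg (mul_nonneg (by norm_num) (Real.log_nonneg hl)) (by linarith)
      linarith
    exact_mod_cast h4
  · have ht : Tendsto (fun n : ℕ => ((1 - (2 + 1) * log (log n) / log n : ℝ) : EReal)) atTop (𝓝 1) := by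
      have h5 : Tendsto (fun n : ℕ => (1 - (2 + 1) * log (log n) / log n : ℝ)) atTop (𝓝 1) := by
        have h6 := (lim0.const_mul (3 : ℝ)).const_sub 1
        rw [mul_zero, sub_zero] at h6
        refine h6.congr fun n => ?_
        ring
      exact (continuous_coe_real_ereal.tendsto 1).comp h5
    rw [← ht.liminf_eq]
    refine liminf_le_liminf ?_
    filter_upwards [h1] with n hn
    exact_mod_cast hn

end Pool.Agent.H63.CM
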