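import Pool.Agent.H63.CM.Main

/-!
# The exact rate
-/

set_option autoImplicit false

open Filter Real MeasureTheory ProbabilityTheory Topology

namespace Pool.Agent.H63.CM

variable {Ω : Type*} [MeasurableSpace Ω] {μ : Measure Ω} [IsProbabilityMeasure μ] {P : Ω → Set ℕ}

theorem liminf_two (h : IsCramer μ P) : ∀ᵐ ω ∂μ,
    liminf (fun n : ℕ => (((recip (P ω) n - 1) * log n / log (log n) : ℝ) : EReal)) atTop = -2 := by
  have hlow : ∀ᵐ ω ∂μ, ∀ k : ℕ, ∀ᶠ n : ℕ in atTop,
      1 - (2 + 1 / ((k : ℝ) + 1)) * log (log n) / log n ≤ recip (P ω) n :=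
    ae_all_iff.2 fun k => lower h (by positivity)
  have hup : ∀ᵐ ω ∂μ, ∀ k : ℕ, ∃ᶠ n : ℕ in atTop,
      recip (P ω) n ≤ 1 - (2 - 1 / ((k : ℝ) + 1)) * log (log n) / log n :=
    ae_all_iff.2 fun k => upper h (by positivity)
  have hl : ∀ᶠ n : ℕ in atTop, 0 < log (n : ℝ) ∧ 0 < log (log (n : ℝ)) := by
    have h1 : Tendsto (fun n : ℕ => log (n : ℝ)) atTop atTop :=
      Real.tendsto_log_atTop.comp tendsto_natCast_atTop_atTop
    filter_upwards [h1.eventually_gt_atTop 0, (Real.tendsto_log_atTop.comp h1).eventually_gt_atTop 0] with n a b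
    exact ⟨a, b⟩
  filter_upwards [hlow, hup] with ω h1 h2
  have hlim : Tendsto (fun k : ℕ => 1 / ((k : ℝ) + 1)) atTop (𝓝 0) := tendsto_one_div_add_atTop_nhds_zero_nat
  apply le_antisymm
  · have h3 : ∀ k : ℕ, liminf (fun n : ℕ => (((recip (P ω) n - 1) * log n / log (log n) : ℝ) : EReal)) atTop ≤
        ((-2 + 1 / ((k : ℝ) + 1) : ℝ) : EReal) := by
      intro k
      apply liminf_le_of_frequently_le'
      refine ((h2 k).and_eventually hl).mono ?_
      rintro n ⟨hn, a, b⟩
      apply EReal.coe_le_coe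
      rw [div_le_iff₀ b]
      have h4 : recip (P ω) n - 1 ≤ -((2 - 1 / ((k : ℝ) + 1)) * log (log n) / log n) := by linarith
      refine (mul_le_mul_of_nonneg_right h4 a.le).trans (le_of_eq ?_)
      field_simp
      ring
    have h5 : Tendsto (fun k : ℕ => ((-2 + 1 / ((k : ℝ) + 1) : ℝ) : EReal)) atTop (𝓝 (((-2 + 0 : ℝ)) : EReal)) :=
      (continuous_coe_real_ereal.tendsto _).comp (hlim.const_add (-2))
    have h6 := ge_of_tendsto' h5 h3
    refine h6.trans (le_of_eq ?_)
    rw [add_zero, EReal.coe_neg]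
    rfl
  · have h3 : ∀ k : ℕ, ((-2 - 1 / ((k : ℝ) + 1) : ℝ) : EReal) ≤
        liminf (fun n : ℕ => (((recip (P ω) n - 1) * log n / log (log n) : ℝ) : EReal)) atTop := by
      intro k
      apply le_liminf_of_le
      · isBoundedDefault
      · filter_upwards [h1 k, hl] with n hn hab
        obtain ⟨a, b⟩ := hab
        apply EReal.coe_le_coe
        rw [le_div_iff₀ b]
        have h4 : -((2 + 1 / ((k : ℝ) + 1)) * log (log n) / log n) ≤ recip (P ω) n - 1 := by linarith
        refine le_trans (le_of_eq ?_) (mul_le_mul_of_nonneg_right h4 a.le)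
        field_simp
        ring
    have h5 : Tendsto (fun k : ℕ => ((-2 - 1 / ((k : ℝ) + 1) : ℝ) : EReal)) atTop (𝓝 (((-2 - 0 : ℝ)) : EReal)) :=
      (continuous_coe_real_ereal.tendsto _).comp (hlim.const_sub (-2))
    have h6 := le_of_tendsto' h5 h3
    refine le_trans (le_of_eq ?_) h6
    rw [sub_zero, EReal.coe_neg]
    rfl

end Pool.Agent.H63.CM
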